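import Mathlib
import Pool.Agent.V11276.UG

/-!
MP_1e8505_an, Q1 (Halmos), answered affirmatively: the chain `1 + *ω + ω + 1` is attainable.
It is the lattice of closed invariant subspaces of a bounded operator on a complex separable
Hilbert space.
-/

namespace Pool.Agent.Results.MP_1e8505_an.QuestionOne

/-- `Lat A`: the closed subspaces `M` with `A M ⊆ M`, ordered by inclusion. -/
abbrev Lat {H : Type*} [NormedAddCommGroup H] [InnerProductSpace ℂ H] (A : H →L[ℂ] H) : Type _ :=
  {M : Submodule ℂ H // IsClosed (M : Set H) ∧ ∀ x ∈ M, A x ∈ M}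

/-- An ordered set `L` is attainable if it is order-isomorphic to `Lat A` for some bounded
operator `A` on some complex separable Hilbert space. -/
def Attainable (L : Type) [LE L] : Prop :=
  ∃ (H : Type) (_ : NormedAddCommGroup H) (_ : InnerProductSpace ℂ H) (_ : CompleteSpace H)
    (_ : TopologicalSpace.SeparableSpace H) (A : H →L[ℂ] H), Nonempty (Lat A ≃o L)

/-- The chain `1 + *ω + ω + 1` (`ℤ` with a least and a greatest element adjoined) is attainable. -/
theorem result : Attainable (WithBot (WithTop ℤ)) := by
  have e : HilbertBasis ℤ ℂ (lp (fun _ : ℤ => ℂ) 2) := default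
  obtain ⟨W, hW⟩ := V11276.UG.exists_shift e
  exact ⟨lp (fun _ : ℤ => ℂ) 2, inferInstance, inferInstance, inferInstance,
    V11276.UG.separable e, W, V11276.UG.orderIso e W hW⟩

end Pool.Agent.Results.MP_1e8505_an.QuestionOne
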