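import Mathlib
import Pool.Agent.V11276.UG

/-!
MP_1e8505_an, Q2 (Halmos), answered affirmatively.

For the bilateral weighted shift `W e_n = 2^{-|n|} e_{n+1}` on a complex Hilbert space with
orthonormal basis `(e_n)_{n ∈ ℤ}`, the only closed invariant subspaces are `{0}`, the whole space
and the closed spans `M_k` of the `e_n` with `n ≥ k`.
-/

namespace Pool.Agent.Results.MP_1e8505_an.QuestionTwo

/-- `M_k`: the closed linear span of the basis vectors `e_n` with `n ≥ k`. -/
def obvious {H : Type*} [NormedAddCommGroup H] [InnerProductSpace ℂ H]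
    (e : HilbertBasis ℤ ℂ H) (k : ℤ) : Submodule ℂ H :=
  (Submodule.span ℂ ((fun n : ℤ => e n) '' Set.Ici k)).topologicalClosure

/-- The weighted shift exists for every orthonormal basis indexed by `ℤ`, and its closed invariant
subspaces are exactly the obvious ones. -/
theorem result :
    ∀ (H : Type) [NormedAddCommGroup H] [InnerProductSpace ℂ H] [CompleteSpace H]
      (e : HilbertBasis ℤ ℂ H),
      (∃ W : H →L[ℂ] H, ∀ n : ℤ, W (e n) = ((2 : ℂ) ^ (-|n|)) • e (n + 1)) ∧
      ∀ W : H →L[ℂ] H, (∀ n : ℤ, W (e n) = ((2 : ℂ) ^ (-|n|)) • e (n + 1)) →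
        ∀ M : Submodule ℂ H, (IsClosed (M : Set H) ∧ ∀ x ∈ M, W x ∈ M) ↔
          (M = ⊥ ∨ M = ⊤ ∨ ∃ k : ℤ, M = obvious e k) := by
  intro H _ _ _ e
  exact ⟨V11276.UG.exists_shift e, fun W hW M => V11276.UG.classify_iff e W hW M⟩

end Pool.Agent.Results.MP_1e8505_an.QuestionTwo
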